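import Mathlib

set_option autoImplicit false

/-!
# Cellular automata, Turing domains, computation-universality, universal computers

The definitions of the problem file MP_8a6a08_lc.
-/

namespace Pool.Agent.R497.CA

/-- A cellular automaton on `ℤ^d`: finite state set `S`, quiescent state `ν`, finite neighbourhood
`N`, local rule `f` mapping the all-`ν` neighbourhood to `ν`. -/
structure Automaton (d : ℕ) where
  S : Type
  [fintype : Fintype S]
  ν : S
  N : Finset (Fin d → ℤ)
  f : (N → S) → S
  quiescent : f (fun _ => ν) = ν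

attribute [instance] Automaton.fintype

variable {d : ℕ}

/-- Configurations. -/
abbrev Conf (A : Automaton d) : Type := (Fin d → ℤ) → A.S

/-- The global map. -/
def glob (A : Automaton d) (c : Conf A) : Conf A := fun x => A.f (fun a => c (x + a))

variable {A : Automaton d}

/-- The support of a configuration. -/
def Supp (c : Conf A) : Set (Fin d → ℤ) := {x | c x ≠ A.ν}

/-- Two configurations with disjoint supports. -/
def Disj (c c' : Conf A) : Prop := Disjoint (Supp c) (Supp c')

open Classical in
/-- The union `c ⊔ c'` of two configurations with disjoint supports. -/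
noncomputable def join (c c' : Conf A) : Conf A := fun x => if c x ≠ A.ν then c x else c' x

/-- `c'` is a subconfiguration of `c`. -/
def IsSub (c' c : Conf A) : Prop := ∀ x ∈ Supp c', c x = c' x

/-- `c` is passive. -/
def Passive (c : Conf A) : Prop := glob A c = c

/-- `c` is completely passive. -/
def CompPassive (c : Conf A) : Prop := ∀ c', IsSub c' c → Passive c'

open Classical in
/-- The restriction of a configuration to a set of cells (quiescent elsewhere). -/
noncomputable def restrict (U : Set (Fin d → ℤ)) (c : Conf A) : Conf A :=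
  fun x => if x ∈ U then c x else A.ν

/-- `c` passes information to `c'`. -/
def PassesInfo (c c' : Conf A) : Prop :=
  ∃ t : ℕ, ∃ x ∈ Supp ((glob A)^[t] c'), (glob A)^[t] (join c c') x ≠ (glob A)^[t] c' x

/-- The translate of `c` by `τ`. -/
def translate (τ : Fin d → ℤ) (c : Conf A) : Conf A := fun x => c (x - τ)

/-- `u` is the union of the translates by `τ c` of the configurations `c ∈ F`. -/
def IsUnion (u : Conf A) (F : Finset (Conf A)) (τ : Conf A → (Fin d → ℤ)) : Prop :=
  ∀ x, ∀ s, s ≠ A.ν → (u x = s ↔ ∃ c ∈ F, translate (τ c) c x = s)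

/-- A sequence of (finite) configurations is recursive: for a numbering `e` of the states, a
computable function gives for each `n` the list of all pairs (cell, number of its state) over the
support of `ι n`. -/
def IsRecursive (ι : ℕ → Conf A) : Prop :=
  ∃ (e : A.S ≃ Fin (Fintype.card A.S)) (g : ℕ → List ((Fin d → ℤ) × ℕ)), Computable g ∧
    ∀ n x s, s ≠ A.ν → (ι n x = s ↔ (x, (e s : ℕ)) ∈ g n)

/-- A Turing domain. -/
structure TuringDomain (A : Automaton d) where
  T : Set (Conf A)
  ι : ℕ → Conf A
  finite : ∀ c ∈ T, (Supp c).Finite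
  mem : ∀ n, ι n ∈ T
  injective : Function.Injective ι
  recursive : IsRecursive ι
  passive : ∀ c ∈ T, CompPassive c
  union : ∀ (F : Finset (Conf A)) (τ : Conf A → (Fin d → ℤ)), (∀ c ∈ F, c ∈ T) →
    (∀ c ∈ F, ∀ c' ∈ F, c ≠ c' → Disj (translate (τ c) c) (translate (τ c') c')) →
    ∀ u, IsUnion u F τ → CompPassive u

/-- The union of the supports of the members of the Turing domain. -/
def TuringDomain.U (D : TuringDomain A) : Set (Fin d → ℤ) := ⋃ c ∈ D.T, Supp c

/-- `c` computes the partial function `ψ` with respect to the Turing domain `D`. -/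
def Computes (D : TuringDomain A) (c : Conf A) (ψ : ℕ →. ℕ) : Prop :=
  c ∉ D.T ∧ ∃ α ∈ Supp c, ∃ s : A.S, s ≠ A.ν ∧ ∀ n m, m ∈ ψ n →
    Disj c (D.ι n) ∧ ∃ t : ℕ,
      (glob A)^[t] (join c (D.ι n)) α = s ∧
      (∀ t' < t, (glob A)^[t'] (join c (D.ι n)) α ≠ s) ∧
      ¬ PassesInfo (restrict D.Uᶜ ((glob A)^[t] (join c (D.ι n))))
          (restrict D.U ((glob A)^[t] (join c (D.ι n)))) ∧
      restrict D.U ((glob A)^[t] (join c (D.ι n))) = D.ι m

/-- The automaton is computation-universal with respect to the Turing domain. -/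
def ComputationUniversal (D : TuringDomain A) : Prop :=
  ∀ ψ : ℕ →. ℕ, Nat.Partrec ψ → ∃ c, Computes D c ψ

/-- `c` is a universal computer with respect to the Turing domain. -/
def UniversalComputer (D : TuringDomain A) (c : Conf A) : Prop :=
  c ∉ D.T ∧ ∀ ψ : ℕ →. ℕ, Nat.Partrec ψ → ∃ δ ∈ D.T, ∃ τ : Fin d → ℤ,
    Disj (translate τ δ) c ∧ translate τ δ ∉ D.T ∧ Computes D (join c (translate τ δ)) ψ

end Pool.Agent.R497.CA
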