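import Pool.Agent.R497.CA.Rec

set_option autoImplicit false
set_option linter.unusedSectionVars false

namespace Pool.Agent.R497.CA

open Turing Relation StateTransition
open Turing.PartrecToTM2 (trNat trList trNum trPosNum K' Γ')

/-- the program stacks -/
def progS (e : ℕ) : K' → List Γ' := K'.elim [] (Γ'.cons :: (trNat e).reverse) [] []

theorem wp_tape {S S' : K' → List Γ'} (h : ∀ j, j ≠ K'.main → S j = S' j) (k : ℤ) :
    wp (tapeOf S k) = wp (tapeOf S' k) := by
  by_cases hk : k < 0
  · rw [tapeOf_neg _ hk, tapeOf_neg _ hk]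
  · unfold wp pr
    refine Prod.ext ?_ ?_
    · simp only [tapeOf_fst]
    · simp only
      funext j
      by_cases hj : j = K'.main
      · subst hj; simp
      · rw [Function.update_of_ne hj, Function.update_of_ne hj, tapeOf_snd _ (not_lt.1 hk),
          tapeOf_snd _ (not_lt.1 hk), h j hj]

theorem up_tape {S S' : K' → List Γ'} (h : S K'.main = S' K'.main) (k : ℤ) :
    up (tapeOf S k) = up (tapeOf S' k) := by
  by_cases hk : k < 0
  · rw [tapeOf_neg _ hk, tapeOf_neg _ hk]
  · rw [up_eq, up_eq, tapeOf_snd _ (not_lt.1 hk), tapeOf_snd _ (not_lt.1 hk), h]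

theorem wp_init (e n : ℕ) (k : ℤ) : wp (tapeOf (initS e n) k) = wp (tapeOf (progS e) k) := by
  refine wp_tape (fun j hj => ?_) k
  cases j
  · exact absurd rfl hj
  all_goals rfl

theorem up_init (e n : ℕ) (k : ℤ) : up (tapeOf (initS e n) k) = up (tapeOf (finS n) k) :=
  up_tape (S := initS e n) (S' := finS n) rfl k

theorem wp_fin (n m : ℕ) (k : ℤ) : wp (tapeOf (finS n) k) = wp (tapeOf (finS m) k) := by
  refine wp_tape (fun j hj => ?_) k
  cases j
  · exact absurd rfl hj
  all_goals rfl

section construction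

variable {Q : Type} [Fintype Q] (M : Q → Sy → Option (Q × TM0.Stmt Sy))

/-- the layer of the program -/
def pl (q0 : Q) (e : ℕ) : ℤ → Ly Q := fun x =>
  if x % 3 = 0 then
    (wp (tapeOf (progS e) (x / 3)), if x / 3 = 0 then some (some q0) else none)
  else ν0

/-- the program configuration -/
def prog (q0 : Q) (e : ℕ) : Conf (aut M) := mk M (pl q0 e) (pl q0 e)

theorem prog_of_ne {q0 : Q} {e : ℕ} {x : Fin 1 → ℤ} (h : x 0 % 3 ≠ 0) :
    prog M q0 e x = (aut M).ν := by
  show ((pl q0 e (x 0), pl q0 e (-(x 0))) : Ly Q × Ly Q) = (ν0, ν0)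
  unfold pl
  rw [if_neg h, if_neg (by omega)]

theorem io_of_eq {n : ℕ} {x : Fin 1 → ℤ} (h : x 0 % 3 = 0) :
    io M n x = (aut M).ν := by
  by_contra hc
  exact io_supp M hc h

theorem enc_of_eq {q : Option Q} {p : ℤ} {F : ℤ → Sy} {x : ℤ} (h : x % 3 = 0) :
    enc q p F x = (wp (F (x / 3)), if x / 3 = p then some q else none) := by
  unfold enc; rw [if_pos h]

theorem enc_of_ne {q : Option Q} {p : ℤ} {F : ℤ → Sy} {x : ℤ} (h : x % 3 ≠ 0) :
    enc q p F x = (up (F (x / 3)), none) := by
  unfold enc; rw [if_neg h]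

open Classical in
theorem join_prog (q0 : Q) (e n : ℕ) : join (prog M q0 e) (io M n) =
    mk M (enc (some q0) 0 (tapeOf (initS e n))) (enc (some q0) 0 (tapeOf (initS e n))) := by
  funext x
  unfold join
  by_cases h : x 0 % 3 = 0
  · have h' : (-(x 0)) % 3 = 0 := by omega
    rw [io_of_eq M h]
    have h1 : (if prog M q0 e x ≠ (aut M).ν then prog M q0 e x else (aut M).ν) =
        prog M q0 e x := by
      split_ifs with h2
      · rfl
      · exact (not_not.1 h2).symm
    rw [h1]
    show ((pl q0 e (x 0), pl q0 e (-(x 0))) : Ly Q × Ly Q) = (enc _ _ _ (x 0), enc _ _ _ (-(x 0)))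
    unfold pl
    rw [enc_of_eq h, enc_of_eq h', if_pos h, if_pos h', wp_init, wp_init]
  · have h' : (-(x 0)) % 3 ≠ 0 := by omega
    rw [prog_of_ne M h, if_neg (by simp)]
    show ((lay n (x 0), lay n (-(x 0))) : Ly Q × Ly Q) = (enc _ _ _ (x 0), enc _ _ _ (-(x 0)))
    unfold lay
    rw [enc_of_ne h, enc_of_ne h', if_neg h, if_neg h', up_init, up_init]

theorem prog_disj (q0 : Q) (e n : ℕ) : Disj (prog M q0 e) (io M n) := by
  refine Set.disjoint_left.2 fun x hx hy => ?_
  by_cases h : x 0 % 3 = 0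
  · exact hy (io_of_eq M h)
  · exact hx (prog_of_ne M h)

theorem prog_zero (q0 : Q) (e : ℕ) : (prog M q0 e (fun _ => 0)).1.2 = some (some q0) := by
  show (pl q0 e 0).2 = _
  unfold pl
  simp

theorem prog_not_mem (q0 : Q) (e : ℕ) : prog M q0 e ∉ (dom M).T := by
  rintro ⟨n, hn⟩
  have h := (io_quiet M n (fun _ => 0) q0).1
  rw [hn] at h
  exact h (prog_zero M q0 e)

theorem prog_finite (q0 : Q) (e : ℕ) : (Supp (prog M q0 e)).Finite := by
  have key : ∀ y : ℤ, (3 * (trNat e).length + 6 : ℤ) < |y| → (pl q0 e y : Ly Q) = ν0 := by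
    intro y hy
    unfold pl
    split_ifs with h3 h0
    · exfalso
      have : y = 0 := by omega
      subst this
      simp at hy
      omega
    · rcases lt_trichotomy y 0 with h | h | h
      · rw [tapeOf_neg _ (by omega), wp_default]; rfl
      · subst h; simp at h0
      · rw [abs_of_pos h] at hy
        unfold ν0
        refine Prod.ext ?_ rfl
        simp only
        have : tapeOf (progS e) (y / 3) = default := by
          refine Prod.ext ?_ ?_
          · rw [tapeOf_fst, decide_eq_false (by omega)]; rfl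
          · funext j
            rw [tapeOf_snd _ (by omega)]
            have hl : (progS e j).reverse.length ≤ (y / 3).toNat := by
              cases j <;> simp [progS] <;> omega
            rw [List.getElem?_eq_none hl]
            rfl
        rw [this, wp_default]
    · rfl
  exact supp_finite M _ key key

theorem enc_none_quiet {p : ℤ} {F : ℤ → Sy} (a b : ℤ → Ly Q) (ha : a = enc none p F)
    (hb : b = enc none p F) : Quiet M (mk M a b) := by
  subst ha hb
  intro x q
  constructor
  · show (enc none p F (x 0)).2 ≠ _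
    unfold enc; split_ifs <;> simp
  · show (enc none p F (-(x 0))).2 ≠ _
    unfold enc; split_ifs <;> simp

theorem restrict_sub (U : Set (Fin 1 → ℤ)) (c : Conf (aut M)) : IsSub (restrict U c) c := by
  intro x hx
  unfold restrict
  split_ifs with h
  · rfl
  · exact absurd (by unfold restrict; rw [if_neg h]) hx

theorem quiet_not_passes {c : Conf (aut M)} (h : Quiet M c) (U : Set (Fin 1 → ℤ)) :
    ¬ PassesInfo (restrict Uᶜ c) (restrict U c) := by
  rintro ⟨t, x, hx, hne⟩
  apply hne
  have hj : join (restrict Uᶜ c) (restrict U c) = c := by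
    funext y
    unfold join restrict
    by_cases hy : y ∈ U
    · have hy' : y ∉ Uᶜ := fun h => h hy
      rw [if_pos hy, if_neg hy', if_neg (by simp)]
    · have hy' : y ∈ Uᶜ := hy
      rw [if_neg hy, if_pos hy']
      split_ifs with h2
      · rfl
      · exact (not_not.1 h2).symm
  have hq := quiet_sub M h (restrict_sub M U c)
  rw [iter_quiet M hq] at hx ⊢
  rw [hj, iter_quiet M h]
  exact restrict_sub M U c x hx

theorem restrict_final (m : ℕ) (e : Conf (aut M))
    (he : e = mk M (enc none 0 (tapeOf (finS m))) (enc none 0 (tapeOf (finS m)))) :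
    restrict (dom M).U e = io M m := by
  subst he
  rw [dom_U]
  funext x
  unfold restrict
  by_cases h : x 0 % 3 = 0
  · rw [if_neg (fun h' => h' h), io_of_eq M h]
  · have h' : (-(x 0)) % 3 ≠ 0 := by omega
    rw [if_pos (show x ∈ {x : Fin 1 → ℤ | x 0 % 3 ≠ 0} from h)]
    show ((enc _ _ _ (x 0), enc _ _ _ (-(x 0))) : Ly Q × Ly Q) = (lay m (x 0), lay m (-(x 0)))
    unfold lay
    rw [enc_of_ne h, enc_of_ne h', if_neg h, if_neg h']

/-- the halting state of a layer -/
def sh : Ly Q := (wp (tapeOf (finS 0) 0), some none)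

/-- the halting state -/
def sHalt : (aut M).S := ((sh, sh) : Ly Q × Ly Q)

theorem prog_computes {q0 : Q} (hM : ∀ e n m : ℕ,
      m ∈ (Denumerable.ofNat Nat.Partrec.Code e).eval n →
      ∃ q1 : Q, Reaches (astep M) (q0, 0, tapeOf (initS e n)) (q1, 0, tapeOf (finS m)) ∧
        M q1 (tapeOf (finS m) 0) = none) {ψ : ℕ →. ℕ} {e : ℕ}
    (he : (Denumerable.ofNat Nat.Partrec.Code e).eval = ψ) :
    Computes (dom M) (prog M q0 e) ψ := by
  refine ⟨prog_not_mem M q0 e, fun _ => 0, ?_, sHalt M, ?_, ?_⟩
  · intro h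
    have h1 := prog_zero M q0 e
    rw [h] at h1
    exact absurd h1 (by simp [aut, ν0])
  · intro h
    have h1 : ((sHalt M : Ly Q × Ly Q)).1.2 = ((aut M).ν : Ly Q × Ly Q).1.2 := by rw [h]
    exact absurd h1 (by simp [aut, ν0, sHalt, sh])
  · intro n m hm
    refine ⟨prog_disj M q0 e n, ?_⟩
    rw [← he] at hm
    obtain ⟨q1, hr, hn⟩ := hM e n m hm
    obtain ⟨t, ht, hall⟩ := lstep_reaches M hr
    simp only at ht hall
    have hfin : (glob (aut M))^[t + 1] (join (prog M q0 e) ((dom M).ι n)) =
        mk M (enc none 0 (tapeOf (finS m))) (enc none 0 (tapeOf (finS m))) := by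
      show (glob (aut M))^[t + 1] (join (prog M q0 e) (io M n)) = _
      rw [join_prog, glob_iter, Function.iterate_succ_apply', ht, lstep_of_none M hn]
    refine ⟨t + 1, ?_, ?_, ?_, ?_⟩
    · rw [hfin]
      show ((enc none 0 (tapeOf (finS m)) 0, enc none 0 (tapeOf (finS m)) (-0)) : Ly Q × Ly Q) =
        (sh, sh)
      rw [neg_zero, enc_of_eq (by norm_num)]
      unfold sh
      simp only [EuclideanDomain.zero_div, if_true]
      rw [wp_fin m 0]
    · intro t' ht' hcon
      have hrun : (glob (aut M))^[t'] (join (prog M q0 e) ((dom M).ι n)) =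
          mk M ((lstep M)^[t'] (enc (some q0) 0 (tapeOf (initS e n))))
            ((lstep M)^[t'] (enc (some q0) 0 (tapeOf (initS e n)))) := by
        show (glob (aut M))^[t'] (join (prog M q0 e) (io M n)) = _
        rw [join_prog, glob_iter]
      obtain ⟨c'', hc''⟩ := hall t' (by omega)
      rw [hrun, hc''] at hcon
      have h2 : (enc (some c''.1) c''.2.1 c''.2.2 0 : Ly Q).2 = some none := by
        have := congrArg (fun s : Ly Q × Ly Q => s.1.2) hcon
        exact this
      rw [enc_of_eq (by norm_num)] at h2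
      simp only at h2
      split_ifs at h2
      exact absurd (Option.some.inj h2) (by simp)
    · exact quiet_not_passes M (by rw [hfin]; exact enc_none_quiet M _ _ rfl rfl) _
    · exact restrict_final M m _ hfin

theorem no_universal (c : Conf (aut M)) : ¬ UniversalComputer (dom M) c := by
  rintro ⟨_, h⟩
  obtain ⟨δ, ⟨n, rfl⟩, τ, hdisj, _, _, α, _, s, _, hc⟩ := h (fun n => Part.some n)
    Nat.Partrec.some
  -- the translate has a nonblank cell in `U`
  have hlen : 0 < (wd n).length := by rw [wd_length]; omega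
  have hne : ∀ i : ℤ, (i = 1 ∨ i = 2) → (io M n (fun _ => i)) ≠ (aut M).ν := by
    intro i hi h
    have h1 := io_R M n 0 hlen i hi
    have h2 : (fun _ : Fin 1 => 3 * ((0 : ℕ) : ℤ) + i) = fun _ => i := by
      funext _; push_cast; ring
    rw [h2, h] at h1
    have h3 : (upO (some (wd n)[0]) : Sy) = default :=
      (congrArg (fun s : Ly Q × Ly Q => s.1.1) h1).symm
    exact upO_some_ne _ h3
  obtain ⟨i, hi, hi3⟩ : ∃ i : ℤ, (i = 1 ∨ i = 2) ∧ (τ 0 + i) % 3 ≠ 0 := by
    by_cases h1 : (τ 0 + 1) % 3 = 0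
    · exact ⟨2, Or.inr rfl, by omega⟩
    · exact ⟨1, Or.inl rfl, h1⟩
  obtain ⟨n', hn'⟩ := cover M hi3
  have hd := (hc n' n' (Part.mem_some n')).1
  have hx : (fun _ => τ 0 + i) ∉ Supp (join c (translate τ (io M n))) := fun h =>
    Set.disjoint_left.1 (show Disjoint _ _ from hd) h hn'
  apply hx
  have ht : translate τ (io M n) (fun _ => τ 0 + i) ≠ (aut M).ν := by
    unfold translate
    have : ((fun _ => τ 0 + i) - τ : Fin 1 → ℤ) = fun _ => i := by
      funext j
      rw [Subsingleton.elim j 0]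
      simp
    rw [this]
    exact hne i hi
  show join c (translate τ (io M n)) (fun _ => τ 0 + i) ≠ (aut M).ν
  unfold join
  split_ifs with h1
  · exact h1
  · exact ht

end construction

theorem main : ∃ (A : Automaton 1) (D : TuringDomain A),
    (∀ ψ : ℕ →. ℕ, Nat.Partrec ψ → ∃ c, (Supp c).Finite ∧ Computes D c ψ) ∧
    ∀ c, ¬ UniversalComputer D c := by
  obtain ⟨Q, hQ, q0, M, hM⟩ := exists_machine
  refine ⟨aut M, dom M, fun ψ hψ => ?_, no_universal M⟩
  obtain ⟨k, hk⟩ := Nat.Partrec.Code.exists_code.1 hψ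
  refine ⟨prog M q0 (Encodable.encode k), prog_finite M q0 _, prog_computes M hM ?_⟩
  rw [Denumerable.ofNat_encode]
  exact hk

end Pool.Agent.R497.CA
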