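import Pool.Agent.R497.CA.Univ

set_option autoImplicit false
set_option linter.unusedSimpArgs false

namespace Pool.Agent.R497.CA

open Turing Relation StateTransition
open Turing.PartrecToTM2 (trNat trList trNum trPosNum K' Γ')

/-- the part of a symbol without the main stack -/
def wp (a : Sy) : Sy := pr a.1 (Function.update a.2 K'.main none)

/-- the main stack part of a symbol -/
def up (a : Sy) : Sy := pr false (Function.update (fun _ => none) K'.main (a.2 K'.main))

/-- recombination -/
def cmb (w u : Sy) : Sy := pr w.1 (Function.update w.2 K'.main (u.2 K'.main))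

theorem cmb_wp_up (a : Sy) : cmb (wp a) (up a) = a := by
  unfold cmb wp up pr
  refine Prod.ext rfl ?_
  funext k
  by_cases hk : k = K'.main
  · subst hk; simp
  · simp [hk]

/-- layer states: a symbol, together with the head information (`none`: no head,
`some none`: halted head, `some (some q)`: head in state `q`) -/
abbrev Ly (Q : Type) : Type := Sy × Option (Option Q)

variable {Q : Type} (M : Q → Sy → Option (Q × TM0.Stmt Sy))

/-- the reaction of a head -/
def reac (h : Option (Option Q)) (w u : Sy) : Option (Q × TM0.Stmt Sy) :=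
  match h with
  | some (some q) => M q (cmb w u)
  | _ => none

/-- The rule of a layer. -/
def rule (g : ℤ → Ly Q) : Ly Q :=
  match (g 0).2 with
  | some (some q) => match M q (cmb (g 0).1 (g 1).1) with
    | none => ((g 0).1, some none)
    | some (q', TM0.Stmt.write a) => (wp a, some (some q'))
    | some (_, TM0.Stmt.move _) => ((g 0).1, none)
  | h => match reac M (g (-3)).2 (g (-3)).1 (g (-2)).1 with
    | some (q', TM0.Stmt.move Dir.right) => ((g 0).1, some (some q'))
    | _ => match reac M (g 3).2 (g 3).1 (g 4).1 with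
      | some (q', TM0.Stmt.move Dir.left) => ((g 0).1, some (some q'))
      | _ => match reac M (g (-1)).2 (g (-1)).1 (g 0).1 with
        | some (_, TM0.Stmt.write a) => (up a, h)
        | _ => match reac M (g (-2)).2 (g (-2)).1 (g (-1)).1 with
          | some (_, TM0.Stmt.write a) => (up a, h)
          | _ => g 0

theorem rule_congr {g g' : ℤ → Ly Q} (h : ∀ j, -4 ≤ j → j ≤ 4 → g j = g' j) :
    rule M g = rule M g' := by
  unfold rule
  rw [h 0 (by norm_num) (by norm_num), h 1 (by norm_num) (by norm_num),
    h (-1) (by norm_num) (by norm_num), h (-2) (by norm_num) (by norm_num),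
    h (-3) (by norm_num) (by norm_num), h 3 (by norm_num) (by norm_num),
    h 4 (by norm_num) (by norm_num)]

theorem rule_quiet {g : ℤ → Ly Q} (h : ∀ j q, (g j).2 ≠ some (some q)) : rule M g = g 0 := by
  have hr : ∀ j w u, reac M (g j).2 w u = none := by
    intro j w u
    unfold reac
    rcases hj : (g j).2 with _ | _ | q
    · rfl
    · rfl
    · exact absurd hj (h j q)
  unfold rule
  rcases h0 : (g 0).2 with _ | _ | q
  · simp only [hr]
  · simp only [hr]
  · exact absurd h0 (h 0 q)

/-- the evolution of a layer -/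
def lstep (a : ℤ → Ly Q) : ℤ → Ly Q := fun x => rule M (fun j => a (x + j))

/-- The layer configuration of an absolute machine configuration: block `k` consists of the cells
`3k` (head and the symbol without the main stack), `3k+1`, `3k+2` (main stack part). -/
def enc (q : Option Q) (p : ℤ) (F : ℤ → Sy) : ℤ → Ly Q := fun x =>
  if x % 3 = 0 then (wp (F (x / 3)), if x / 3 = p then some q else none) else (up (F (x / 3)), none)

theorem enc0 (q : Option Q) (p : ℤ) (F : ℤ → Sy) (k : ℤ) :
    enc q p F (3 * k) = (wp (F k), if k = p then some q else none) := by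
  unfold enc
  have h1 : (3 * k) % 3 = 0 := by omega
  have h2 : (3 * k) / 3 = k := by omega
  rw [h1, h2, if_pos rfl]

theorem enc1 (q : Option Q) (p : ℤ) (F : ℤ → Sy) (k : ℤ) :
    enc q p F (3 * k + 1) = (up (F k), none) := by
  unfold enc
  have h1 : (3 * k + 1) % 3 = 1 := by omega
  have h2 : (3 * k + 1) / 3 = k := by omega
  rw [h1, h2, if_neg (by norm_num)]

theorem enc2 (q : Option Q) (p : ℤ) (F : ℤ → Sy) (k : ℤ) :
    enc q p F (3 * k + 2) = (up (F k), none) := by
  unfold enc
  have h1 : (3 * k + 2) % 3 = 2 := by omega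
  have h2 : (3 * k + 2) / 3 = k := by omega
  rw [h1, h2, if_neg (by norm_num)]

theorem wp_update {F : ℤ → Sy} {p : ℤ} {b : Sy} {k : ℤ} :
    wp (Function.update F p b k) = if k = p then wp b else wp (F k) := by
  rw [Function.update_apply]; split_ifs <;> rfl

theorem up_update {F : ℤ → Sy} {p : ℤ} {b : Sy} {k : ℤ} :
    up (Function.update F p b k) = if k = p then up b else up (F k) := by
  rw [Function.update_apply]; split_ifs <;> rfl

/-- The next layer configuration. -/
def encNext (M : Q → Sy → Option (Q × TM0.Stmt Sy)) (q : Q) (p : ℤ) (F : ℤ → Sy) : ℤ → Ly Q :=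
  match M q (F p) with
  | none => enc none p F
  | some (q', TM0.Stmt.move Dir.left) => enc (some q') (p - 1) F
  | some (q', TM0.Stmt.move Dir.right) => enc (some q') (p + 1) F
  | some (q', TM0.Stmt.write b) => enc (some q') p (Function.update F p b)

theorem lstep_enc (q : Q) (p : ℤ) (F : ℤ → Sy) :
    lstep M (enc (some q) p F) = encNext M q p F := by
  funext x
  obtain ⟨k, hk | hk | hk⟩ : ∃ k, x = 3 * k ∨ x = 3 * k + 1 ∨ x = 3 * k + 2 :=
    ⟨x / 3, by omega⟩
  · subst hk
    unfold lstep rule
    have e0 : (3 * k + 0 : ℤ) = 3 * k := by ring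
    have e3 : (3 * k + -3 : ℤ) = 3 * (k - 1) := by ring
    have e2 : (3 * k + -2 : ℤ) = 3 * (k - 1) + 1 := by ring
    have e1 : (3 * k + -1 : ℤ) = 3 * (k - 1) + 2 := by ring
    have f3 : (3 * k + 3 : ℤ) = 3 * (k + 1) := by ring
    have f4 : (3 * k + 4 : ℤ) = 3 * (k + 1) + 1 := by ring
    simp only [e0, e1, e2, e3, f3, f4, enc0, enc1, enc2]
    unfold encNext
    by_cases h0 : k = p
    · subst h0
      simp only [if_true, cmb_wp_up]
      rcases hM : M q (F k) with _ | ⟨q', (_ | _) | b⟩
      · simp [enc0]
      · have : ¬ k = k - 1 := by omega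
        simp [enc0, this]
      · have : ¬ k = k + 1 := by omega
        simp [enc0]
      · simp [enc0, wp_update]
    · simp only [h0, if_false]
      by_cases h1 : k - 1 = p
      · have h2 : ¬ k + 1 = p := by omega
        subst h1
        simp only [if_true, reac, cmb_wp_up, h2, if_false]
        rcases hM : M q (F (k - 1)) with _ | ⟨q', (_ | _) | b⟩
        · have h3 : ¬ k = k - 1 := by omega
          simp [enc0, h3]
        · have h3 : ¬ k = k - 1 - 1 := by omega
          simp [enc0, h3]
        · simp [enc0]
        · have h3 : ¬ k = k - 1 := by omega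
          simp [enc0, h3, wp_update]
      · by_cases h2 : k + 1 = p
        · subst h2
          simp only [h1, if_true, reac, cmb_wp_up, if_false]
          rcases hM : M q (F (k + 1)) with _ | ⟨q', (_ | _) | b⟩
          · simp [enc0]
          · simp [enc0]
          · have h3 : ¬ k = k + 1 + 1 := by omega
            simp [enc0, h3]
          · simp [enc0, wp_update]
        · simp only [h1, h2, reac, if_false]
          rcases hM : M q (F p) with _ | ⟨q', (_ | _) | b⟩
          · simp [enc0, h0]
          · have h3 : ¬ k = p - 1 := by omega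
            simp [enc0, h3]
          · have h3 : ¬ k = p + 1 := by omega
            simp [enc0, h3]
          · simp [enc0, h0, wp_update]
  · subst hk
    unfold lstep rule
    have e0 : (3 * k + 1 + 0 : ℤ) = 3 * k + 1 := by ring
    have e3 : (3 * k + 1 + -3 : ℤ) = 3 * (k - 1) + 1 := by ring
    have e2 : (3 * k + 1 + -2 : ℤ) = 3 * (k - 1) + 2 := by ring
    have e1 : (3 * k + 1 + -1 : ℤ) = 3 * k := by ring
    have f3 : (3 * k + 1 + 3 : ℤ) = 3 * (k + 1) + 1 := by ring
    have f4 : (3 * k + 1 + 4 : ℤ) = 3 * (k + 1) + 2 := by ring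
    simp only [e0, e1, e2, e3, f3, f4, enc0, enc1, enc2]
    unfold encNext
    by_cases h0 : k = p
    · subst h0
      simp only [if_true, reac, cmb_wp_up]
      rcases hM : M q (F k) with _ | ⟨q', (_ | _) | b⟩
      · simp [enc1]
      · simp [enc1]
      · simp [enc1]
      · simp [enc1, up_update]
    · simp only [h0, if_false, reac]
      rcases hM : M q (F p) with _ | ⟨q', (_ | _) | b⟩
      · simp [enc1]
      · simp [enc1]
      · simp [enc1]
      · simp [enc1, up_update, h0]
  · subst hk
    unfold lstep rule
    have e0 : (3 * k + 2 + 0 : ℤ) = 3 * k + 2 := by ring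
    have e3 : (3 * k + 2 + -3 : ℤ) = 3 * (k - 1) + 2 := by ring
    have e2 : (3 * k + 2 + -2 : ℤ) = 3 * k := by ring
    have e1 : (3 * k + 2 + -1 : ℤ) = 3 * k + 1 := by ring
    have f3 : (3 * k + 2 + 3 : ℤ) = 3 * (k + 1) + 2 := by ring
    have f4 : (3 * k + 2 + 4 : ℤ) = 3 * (k + 2) := by ring
    simp only [e0, e1, e2, e3, f3, f4, enc0, enc1, enc2]
    unfold encNext
    by_cases h0 : k = p
    · subst h0
      simp only [if_true, reac, cmb_wp_up]
      rcases hM : M q (F k) with _ | ⟨q', (_ | _) | b⟩
      · simp [enc2]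
      · simp [enc2]
      · simp [enc2]
      · simp [enc2, up_update]
    · simp only [h0, if_false, reac]
      rcases hM : M q (F p) with _ | ⟨q', (_ | _) | b⟩
      · simp [enc2]
      · simp [enc2]
      · simp [enc2]
      · simp [enc2, up_update, h0]

theorem lstep_of_astep {c c' : ACfg Q Sy} (h : astep M c = some c') :
    lstep M (enc (some c.1) c.2.1 c.2.2) = enc (some c'.1) c'.2.1 c'.2.2 := by
  obtain ⟨q, p, F⟩ := c
  simp only
  rw [lstep_enc]
  unfold encNext
  simp only [astep] at h
  rcases hM : M q (F p) with _ | ⟨q', (_ | _) | b⟩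
  · rw [hM] at h; simp at h
  · rw [hM] at h; simp only [Option.some.injEq] at h; subst h; rfl
  · rw [hM] at h; simp only [Option.some.injEq] at h; subst h; rfl
  · rw [hM] at h; simp only [Option.some.injEq] at h; subst h; rfl

theorem lstep_of_none {q : Q} {p : ℤ} {F : ℤ → Sy} (h : M q (F p) = none) :
    lstep M (enc (some q) p F) = enc none p F := by
  rw [lstep_enc]
  unfold encNext
  rw [h]

/-- simulation of a whole run -/
theorem lstep_reaches {c c' : ACfg Q Sy} (h : Reaches (astep M) c c') :
    ∃ t : ℕ, (lstep M)^[t] (enc (some c.1) c.2.1 c.2.2) = enc (some c'.1) c'.2.1 c'.2.2 ∧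
      ∀ t' ≤ t, ∃ c'' : ACfg Q Sy,
        (lstep M)^[t'] (enc (some c.1) c.2.1 c.2.2) = enc (some c''.1) c''.2.1 c''.2.2 := by
  induction h with
  | refl => exact ⟨0, rfl, fun t' ht' => ⟨c, by
      have : t' = 0 := by omega
      subst this; rfl⟩⟩
  | @tail b1 c1 _ h ih =>
    obtain ⟨t, ht, hall⟩ := ih
    refine ⟨t + 1, ?_, fun t' ht' => ?_⟩
    · rw [Function.iterate_succ_apply', ht]
      exact lstep_of_astep M h
    · rcases Nat.lt_or_ge t' (t + 1) with h' | h'
      · exact hall t' (by omega)
      · have : t' = t + 1 := by omega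
        subst this
        refine ⟨c1, ?_⟩
        · rw [Function.iterate_succ_apply', ht]
          exact lstep_of_astep M h

end Pool.Agent.R497.CA
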