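import Pool.Agent.R497.CA.Defs
import Pool.Agent.R497.CA.Sim

set_option autoImplicit false
set_option linter.unusedSectionVars false

namespace Pool.Agent.R497.CA

open Turing Relation StateTransition
open Turing.PartrecToTM2 (trNat trList trNum trPosNum K' Γ')

section construction

variable {Q : Type} [Fintype Q] (M : Q → Sy → Option (Q × TM0.Stmt Sy))

/-- quiescent state of a layer -/
def ν0 : Ly Q := (default, none)

/-- neighbourhood -/
noncomputable def nbh : Finset (Fin 1 → ℤ) := Finset.Icc (fun _ => -4) (fun _ => 4)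

theorem mem_nbh {j : ℤ} : (fun _ => j) ∈ nbh ↔ -4 ≤ j ∧ j ≤ 4 := by
  simp [nbh, Pi.le_def]

instance finite_K : Finite K' := by
  refine Finite.of_injective (fun k : K' => match k with
    | .main => (0 : Fin 4) | .rev => 1 | .aux => 2 | .stack => 3) ?_
  intro a b h
  cases a <;> cases b <;> first | rfl | (exact absurd h (by decide))

instance finite_Sy : Finite Sy :=
  inferInstanceAs (Finite (Bool × (K' → Option Γ')))

open Classical in
/-- reading a neighbour -/
noncomputable def getL (h : nbh → Ly Q × Ly Q) (j : ℤ) : Ly Q × Ly Q :=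
  if hj : (fun _ => j) ∈ nbh then h ⟨fun _ => j, hj⟩ else (ν0, ν0)

/-- the local rule -/
noncomputable def loc (h : nbh → Ly Q × Ly Q) : Ly Q × Ly Q :=
  (rule M (fun j => (getL h j).1), rule M (fun j => (getL h (-j)).2))

theorem getL_const (j : ℤ) : getL (fun _ : nbh => ((ν0, ν0) : Ly Q × Ly Q)) j = (ν0, ν0) := by
  unfold getL; split_ifs <;> rfl

theorem loc_quiescent : loc M (fun _ => (ν0, ν0)) = (ν0, ν0) := by
  unfold loc
  refine Prod.ext ?_ ?_
  · simp only
    rw [rule_quiet M (fun j q => by rw [getL_const]; simp [ν0]), getL_const]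
  · simp only
    rw [rule_quiet M (fun j q => by rw [getL_const]; simp [ν0]), getL_const]

/-- The automaton: two independent layers, the second one mirrored. -/
noncomputable def aut : Automaton 1 where
  S := Ly Q × Ly Q
  fintype := Fintype.ofFinite _
  ν := (ν0, ν0)
  N := nbh
  f := loc M
  quiescent := loc_quiescent M

/-- the configuration with given layers -/
def mk (a b : ℤ → Ly Q) : Conf (aut M) := fun x => (a (x 0), b (-(x 0)))

theorem eq_mk (c : Conf (aut M)) :
    c = mk M (fun y => (c (fun _ => y)).1) (fun y => (c (fun _ => -y)).2) := by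
  funext x
  have hx : (fun _ => x 0) = x := by
    funext i; rw [Subsingleton.elim i 0]
  unfold mk
  simp only [neg_neg]
  rw [hx]
  rfl

theorem getL_of (h : nbh → Ly Q × Ly Q) {j : ℤ} (hj : (fun _ => j) ∈ nbh) :
    getL h j = h ⟨fun _ => j, hj⟩ := dif_pos hj

theorem glob_mk (a b : ℤ → Ly Q) : glob (aut M) (mk M a b) = mk M (lstep M a) (lstep M b) := by
  funext x
  have e : glob (aut M) (mk M a b) x =
    loc M (fun n : nbh => ((a ((x + n.1) 0), b (-((x + n.1) 0))) : Ly Q × Ly Q)) := rfl
  have e' : mk M (lstep M a) (lstep M b) x = (lstep M a (x 0), lstep M b (-(x 0))) := rfl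
  rw [e, e']
  unfold loc lstep
  refine Prod.ext ?_ ?_
  · dsimp only
    refine rule_congr M fun j h1 h2 => ?_
    have hj : (fun _ => j) ∈ nbh := mem_nbh.2 ⟨h1, h2⟩
    rw [getL_of _ hj]
    rfl
  · dsimp only
    refine rule_congr M fun j h1 h2 => ?_
    have hj : (fun _ => -j) ∈ nbh := mem_nbh.2 ⟨by omega, by omega⟩
    rw [getL_of _ hj]
    show b (-(x 0 + -j)) = b (-x 0 + j)
    congr 1
    ring

theorem glob_iter (a b : ℤ → Ly Q) (t : ℕ) :
    (glob (aut M))^[t] (mk M a b) = mk M ((lstep M)^[t] a) ((lstep M)^[t] b) := by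
  induction t with
  | zero => rfl
  | succ t ih =>
    rw [Function.iterate_succ_apply', ih, glob_mk, Function.iterate_succ_apply',
      Function.iterate_succ_apply']

/-- configurations without active heads -/
def Quiet (c : Conf (aut M)) : Prop :=
  ∀ x q, (c x).1.2 ≠ some (some q) ∧ (c x).2.2 ≠ some (some q)

theorem glob_quiet {c : Conf (aut M)} (h : Quiet M c) : glob (aut M) c = c := by
  have e1 : lstep M (fun y => (c (fun _ => y)).1) = fun y => (c (fun _ => y)).1 := by
    funext y
    unfold lstep
    rw [rule_quiet M (fun j q => (h _ q).1), add_zero]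
  have e2 : lstep M (fun y => (c (fun _ => -y)).2) = fun y => (c (fun _ => -y)).2 := by
    funext y
    unfold lstep
    rw [rule_quiet M (fun j q => (h _ q).2), add_zero]
  have e3 := glob_mk M (fun y => (c (fun _ => y)).1) (fun y => (c (fun _ => -y)).2)
  rw [e1, e2, ← eq_mk M c] at e3
  exact e3

theorem iter_quiet {c : Conf (aut M)} (h : Quiet M c) (t : ℕ) : (glob (aut M))^[t] c = c := by
  induction t with
  | zero => rfl
  | succ t ih => rw [Function.iterate_succ_apply', ih, glob_quiet M h]

theorem quiet_sub {c c' : Conf (aut M)} (h : Quiet M c) (hs : IsSub c' c) : Quiet M c' := by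
  intro x q
  by_cases hx : c' x = (aut M).ν
  · rw [hx]
    exact ⟨by simp [aut, ν0], by simp [aut, ν0]⟩
  · rw [← hs x hx]
    exact h x q

theorem quiet_compPassive {c : Conf (aut M)} (h : Quiet M c) : CompPassive c :=
  fun _ hs => glob_quiet M (quiet_sub M h hs)

/-! ### The Turing domain -/

/-- symbol with main entry `o` -/
def upO (o : Option Γ') : Sy := pr false (Function.update (fun _ => none) K'.main o)

theorem upO_none : upO none = default := by
  unfold upO pr
  rw [Function.update_eq_self]
  rfl

theorem upO_main (o : Option Γ') : (upO o).2 K'.main = o := by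
  show Function.update (fun _ => none) K'.main o K'.main = o
  exact Function.update_self _ _ _

theorem upO_some_ne (a : Γ') : upO (some a) ≠ default := by
  intro h
  have h1 : (upO (some a)).2 K'.main = (default : Sy).2 K'.main := by rw [h]
  rw [upO_main] at h1
  exact absurd h1 (by intro h; cases h)

theorem up_eq (a : Sy) : up a = upO (a.2 K'.main) := rfl

theorem up_default : up default = default := by
  rw [up_eq]; exact upO_none

theorem wp_default : wp default = default := by
  unfold wp pr
  refine Prod.ext rfl ?_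
  exact Function.update_eq_self _ _

/-- the word of the number `n` -/
noncomputable def wd (n : ℕ) : List Γ' := (trList [n]).reverse

/-- the layer of the `n`-th member of the Turing domain -/
noncomputable def lay (n : ℕ) : ℤ → Ly Q := fun x =>
  if x % 3 = 0 then ν0 else (up (tapeOf (finS n) (x / 3)), none)

theorem lay_zero (n : ℕ) {x : ℤ} (h : x % 3 = 0) : (lay n x : Ly Q) = ν0 := if_pos h

theorem lay_pos (n : ℕ) {x : ℤ} (h : x % 3 ≠ 0) (hx : 0 < x) :
    (lay n x : Ly Q) = (upO (wd n)[(x / 3).toNat]?, none) := by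
  unfold lay
  rw [if_neg h, up_eq, tapeOf_snd _ (by omega)]
  rfl

theorem lay_neg (n : ℕ) {x : ℤ} (hx : x < 0) : (lay n x : Ly Q) = ν0 := by
  unfold lay
  split_ifs with h
  · rfl
  · rw [tapeOf_neg _ (by omega), up_default]
    rfl

/-- the `n`-th member of the Turing domain -/
noncomputable def io (n : ℕ) : Conf (aut M) := mk M (lay n) (lay n)

theorem io_quiet (n : ℕ) : Quiet M (io M n) := by
  intro x q
  constructor
  · show (lay n (x 0) : Ly Q).2 ≠ _
    unfold lay; split_ifs <;> simp [ν0]
  · show (lay n (-(x 0)) : Ly Q).2 ≠ _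
    unfold lay; split_ifs <;> simp [ν0]

theorem wd_length (n : ℕ) : (wd n).length = (trNat n).length + 1 := by
  simp [wd, PartrecToTM2.trList]

/-- The recursion computing the binary digits of a number. -/
theorem trNat_rec (n : ℕ) : trNat (n + 1) =
    (if (n + 1) % 2 = 1 then PartrecToTM2.Γ'.bit1 else PartrecToTM2.Γ'.bit0) ::
      trNat ((n + 1) / 2) := by
  have key : ∀ (b : Bool) (m : ℕ), (b = false → m ≠ 0) → trNat (Nat.bit b m) =
      (if b then PartrecToTM2.Γ'.bit1 else PartrecToTM2.Γ'.bit0) :: trNat m := by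
    intro b m hbm
    have h1 : ((Nat.bit b m : ℕ) : Num) = cond b Num.bit1 Num.bit0 (m : Num) :=
      Num.ofNat'_bit b m
    unfold trNat
    rw [h1]
    rcases hm : (m : Num) with _ | p
    · cases b
      · exfalso
        apply hbm rfl
        have : ((m : Num) : ℕ) = 0 := by rw [hm]; rfl
        rwa [Num.to_of_nat] at this
      · rfl
    · cases b <;> rfl
  have h := key ((n + 1) % 2 = 1) ((n + 1) / 2) (by
    intro h
    simp only [decide_eq_false_iff_not] at h
    omega)
  have hb : Nat.bit (decide ((n + 1) % 2 = 1)) ((n + 1) / 2) = n + 1 := by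
    by_cases h : (n + 1) % 2 = 1
    · simp [Nat.bit, h]; omega
    · simp [Nat.bit, h]; omega
  rw [hb] at h
  rw [h]
  simp

theorem trNat_length_pow (k : ℕ) : k < (trNat (2 ^ k)).length := by
  induction k with
  | zero =>
    have h1 := trNat_rec 0
    rw [zero_add] at h1
    rw [pow_zero, h1]; simp
  | succ k ih =>
    have h : 2 ^ (k + 1) = (2 ^ (k + 1) - 1) + 1 := by
      have := Nat.one_le_two_pow (n := k + 1); omega
    rw [h, trNat_rec]
    have h2 : (2 ^ (k + 1) - 1 + 1) / 2 = 2 ^ k := by rw [← h, pow_succ]; omega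
    rw [h2]
    simp only [List.length_cons]
    omega

theorem trNat_inj : ∀ n m : ℕ, trNat n = trNat m → n = m := by
  intro n
  induction n using Nat.strong_induction_on with
  | _ n ih =>
    intro m h
    rcases n with _ | n
    · rcases m with _ | m
      · rfl
      · rw [trNat_rec m] at h; exact absurd h (by simp)
    · rcases m with _ | m
      · rw [trNat_rec n] at h; exact absurd h (by simp)
      · rw [trNat_rec n, trNat_rec m] at h
        simp only [List.cons.injEq] at h
        have h1 := ih ((n + 1) / 2) (by omega) _ h.2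
        have h2 : (n + 1) % 2 = (m + 1) % 2 := by
          have h3 := h.1
          by_cases ha : (n + 1) % 2 = 1 <;> by_cases hb : (m + 1) % 2 = 1
          · omega
          · simp [ha, hb] at h3
          · simp [ha, hb] at h3
          · omega
        omega

theorem wd_inj {n m : ℕ} (h : wd n = wd m) : n = m := by
  have h1 : trList [n] = trList [m] := List.reverse_injective h
  simp only [PartrecToTM2.trList] at h1
  exact trNat_inj _ _ (List.append_left_injective _ h1)

theorem upO_inj {o o' : Option Γ'} (h : upO o = upO o') : o = o' := by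
  have h1 : (upO o).2 K'.main = (upO o').2 K'.main := by rw [h]
  rwa [upO_main, upO_main] at h1

theorem io_inj : Function.Injective (io M) := by
  intro n m h
  apply wd_inj
  apply List.ext_getElem?
  intro k
  have h1 := congrFun h (fun _ => 3 * (k : ℤ) + 1)
  have h2 : (lay n (3 * (k : ℤ) + 1) : Ly Q) = lay m (3 * (k : ℤ) + 1) := congrArg Prod.fst h1
  rw [lay_pos n (by omega) (by omega), lay_pos m (by omega) (by omega)] at h2
  have h3 := upO_inj (congrArg Prod.fst h2)
  have h4 : ((3 * (k : ℤ) + 1) / 3).toNat = k := by omega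
  rwa [h4] at h3

theorem cover {y : ℤ} (hy : y % 3 ≠ 0) : ∃ n, (fun _ => y) ∈ Supp (io M n) := by
  have key : ∀ z : ℤ, z % 3 ≠ 0 → 0 < z → ∃ n, (lay n z : Ly Q) ≠ ν0 := by
    intro z hz hz0
    refine ⟨2 ^ (z / 3).toNat, ?_⟩
    rw [lay_pos _ hz hz0]
    have hl : (z / 3).toNat < (wd (2 ^ (z / 3).toNat)).length := by
      rw [wd_length]
      have := trNat_length_pow (z / 3).toNat
      omega
    rw [List.getElem?_eq_getElem hl]
    intro h
    exact upO_some_ne _ (congrArg Prod.fst h)
  rcases lt_or_gt_of_ne (show y ≠ 0 by intro h; subst h; simp at hy) with h | h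
  · obtain ⟨n, hn⟩ := key (-y) (by omega) (by omega)
    exact ⟨n, fun h => hn (congrArg Prod.snd h)⟩
  · obtain ⟨n, hn⟩ := key y hy h
    exact ⟨n, fun h => hn (congrArg Prod.fst h)⟩

theorem io_supp {n : ℕ} {x : Fin 1 → ℤ} (hx : x ∈ Supp (io M n)) : x 0 % 3 ≠ 0 := by
  intro h
  apply hx
  show ((lay n (x 0), lay n (-(x 0))) : Ly Q × Ly Q) = (ν0, ν0)
  rw [lay_zero n h, lay_zero n (by omega)]

theorem supp_finite {a b : ℤ → Ly Q} (B : ℤ) (ha : ∀ y, B < |y| → a y = ν0)
    (hb : ∀ y, B < |y| → b y = ν0) : (Supp (mk M a b)).Finite := by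
  refine Set.Finite.subset ((Set.finite_Icc (-B) B).image (fun y : ℤ => fun _ : Fin 1 => y)) ?_
  intro x hx
  refine ⟨x 0, ?_, by funext i; rw [Subsingleton.elim i 0]⟩
  by_contra hcon
  apply hx
  have h : B < |x 0| := by
    by_contra h
    exact hcon (abs_le.1 (not_lt.1 h))
  show (a (x 0), b (-(x 0))) = (ν0, ν0)
  rw [ha _ h, hb _ (by rwa [abs_neg])]

theorem io_finite (n : ℕ) : (Supp (io M n)).Finite := by
  have key : ∀ y : ℤ, (3 * (wd n).length + 3 : ℤ) < |y| → (lay n y : Ly Q) = ν0 := by
    intro y hy
    rcases lt_trichotomy y 0 with h | h | h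
    · exact lay_neg n h
    · subst h; exact lay_zero n rfl
    · by_cases h3 : y % 3 = 0
      · exact lay_zero n h3
      · rw [abs_of_pos h] at hy
        rw [lay_pos n h3 h, List.getElem?_eq_none (by omega), upO_none]
        rfl
  exact supp_finite M _ key key

end construction

end Pool.Agent.R497.CA
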