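import Pool.Agent.R497.CA.Main

set_option autoImplicit false
set_option linter.unusedSectionVars false

namespace Pool.Agent.R497.CA

open Turing Relation StateTransition
open Turing.PartrecToTM2 (trNat trList trNum trPosNum K' Γ')

/-- The coded binary digits of a number form a computable function. -/
theorem digits_computable (κ : PartrecToTM2.Γ' → ℕ) :
    Computable (fun n : ℕ => (trNat n).map κ) := by
  suffices h : Primrec₂ (fun (_ : Unit) (n : ℕ) => (trNat n).map κ) from
    (h.comp (Primrec.const ()) Primrec.id).to_comp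
  refine Primrec.nat_strong_rec _ (g := fun _ (l : List (List ℕ)) =>
    if l.length = 0 then some []
    else (l[l.length / 2]?).map (fun v =>
      (if l.length % 2 = 1 then κ PartrecToTM2.Γ'.bit1 else κ PartrecToTM2.Γ'.bit0) :: v)) ?_ ?_
  · refine Primrec.ite (PrimrecRel.comp Primrec.eq
      (Primrec.list_length.comp Primrec.snd) (Primrec.const 0)) (Primrec.const _) ?_
    refine Primrec.option_map (Primrec.list_getElem?.comp Primrec.snd
      (Primrec.nat_div.comp (Primrec.list_length.comp Primrec.snd) (Primrec.const 2))) ?_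
    refine Primrec.list_cons.comp (Primrec.ite (PrimrecRel.comp Primrec.eq
      (Primrec.nat_mod.comp (Primrec.list_length.comp (Primrec.snd.comp Primrec.fst))
        (Primrec.const 2)) (Primrec.const 1)) (Primrec.const _) (Primrec.const _)) Primrec.snd
  · intro _ n
    rcases n with _ | n
    · simp
    · have : (n + 1) / 2 < n + 1 := by omega
      simp only [List.length_map, List.length_range]
      rw [if_neg (by omega)]
      rw [List.getElem?_map, List.getElem?_range this, trNat_rec n]
      simp only [Option.map_some, List.map_cons]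
      split_ifs <;> rfl

theorem word_computable (κ : Γ' → ℕ) : Computable (fun n : ℕ => (wd n).map κ) := by
  have h1 : (fun n : ℕ => (wd n).map κ) =
      fun n => κ Γ'.cons :: ((trNat n).map κ).reverse := by
    funext n
    simp [wd, PartrecToTM2.trList]
  rw [h1]
  exact Computable.list_cons.comp (Computable.const _)
    (Computable.list_reverse.comp (digits_computable κ))

/-- positions on the right half -/
def posR (l : List ℕ) : List ((Fin 1 → ℤ) × ℕ) :=
  (List.range l.length).flatMap fun k =>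
    [((fun _ => ((3 * k + 1 : ℕ) : ℤ)), l.getI k), ((fun _ => ((3 * k + 2 : ℕ) : ℤ)), l.getI k)]

/-- positions on the left half -/
def posL (l : List ℕ) : List ((Fin 1 → ℤ) × ℕ) :=
  (List.range l.length).flatMap fun k =>
    [((fun _ => Int.negSucc (3 * k)), l.getI k), ((fun _ => Int.negSucc (3 * k + 1)), l.getI k)]

theorem primrec_ofNat : Primrec (fun n : ℕ => (n : ℤ)) := by
  have h : Primrec (fun n : ℕ => 2 * n) := Primrec.nat_mul.comp (Primrec.const 2) Primrec.id
  exact Primrec.encode_iff.1 h

theorem primrec_negSucc : Primrec (fun n : ℕ => Int.negSucc n) := by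
  have h : Primrec (fun n : ℕ => 2 * n + 1) :=
    Primrec.succ.comp (Primrec.nat_mul.comp (Primrec.const 2) Primrec.id)
  exact Primrec.encode_iff.1 h

theorem primrec_fin1 {α : Type} [Primcodable α] {f : α → ℤ} (hf : Primrec f) :
    Primrec (fun a => (fun _ : Fin 1 => f a)) := by
  rw [Primrec.fin_curry]
  exact hf.comp Primrec.fst

theorem primrec_lin (a b : ℕ) : Primrec (fun k : ℕ => a * k + b) :=
  Primrec.nat_add.comp (Primrec.nat_mul.comp (Primrec.const a) Primrec.id) (Primrec.const b)

theorem primrec_posR : Primrec posR := by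
  unfold posR
  refine Primrec.list_flatMap (Primrec.list_range.comp Primrec.list_length) ?_
  have hk : Primrec (fun p : List ℕ × ℕ => p.1.getI p.2) :=
    Primrec.list_getI.comp Primrec.fst Primrec.snd
  have h1 : Primrec (fun p : List ℕ × ℕ => (fun _ : Fin 1 => ((3 * p.2 + 1 : ℕ) : ℤ))) :=
    primrec_fin1 (primrec_ofNat.comp ((primrec_lin 3 1).comp Primrec.snd))
  have h2 : Primrec (fun p : List ℕ × ℕ => (fun _ : Fin 1 => ((3 * p.2 + 2 : ℕ) : ℤ))) :=
    primrec_fin1 (primrec_ofNat.comp ((primrec_lin 3 2).comp Primrec.snd))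
  exact Primrec.list_cons.comp (h1.pair hk) (Primrec.list_cons.comp (h2.pair hk) (Primrec.const []))

theorem primrec_posL : Primrec posL := by
  unfold posL
  refine Primrec.list_flatMap (Primrec.list_range.comp Primrec.list_length) ?_
  have hk : Primrec (fun p : List ℕ × ℕ => p.1.getI p.2) :=
    Primrec.list_getI.comp Primrec.fst Primrec.snd
  have h1 : Primrec (fun p : List ℕ × ℕ => (fun _ : Fin 1 => Int.negSucc (3 * p.2))) :=
    primrec_fin1 (primrec_negSucc.comp
      ((Primrec.nat_mul.comp (Primrec.const 3) Primrec.id).comp Primrec.snd))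
  have h2 : Primrec (fun p : List ℕ × ℕ => (fun _ : Fin 1 => Int.negSucc (3 * p.2 + 1))) :=
    primrec_fin1 (primrec_negSucc.comp ((primrec_lin 3 1).comp Primrec.snd))
  exact Primrec.list_cons.comp (h1.pair hk) (Primrec.list_cons.comp (h2.pair hk) (Primrec.const []))

section construction

variable {Q : Type} [Fintype Q] (M : Q → Sy → Option (Q × TM0.Stmt Sy))

/-- state of the right half -/
def sR (a : Γ') : Ly Q × Ly Q := ((upO (some a), none), ν0)

/-- state of the left half -/
def sL (a : Γ') : Ly Q × Ly Q := (ν0, (upO (some a), none))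

theorem io_apply (n : ℕ) (y : ℤ) :
    io M n (fun _ => y) = ((lay n y, lay n (-y)) : Ly Q × Ly Q) := rfl

theorem io_R (n k : ℕ) (hk : k < (wd n).length) (i : ℤ) (hi : i = 1 ∨ i = 2) :
    io M n (fun _ => 3 * (k : ℤ) + i) = sR (wd n)[k] := by
  rw [io_apply, lay_pos n (by omega) (by omega), lay_neg n (by omega)]
  have : ((3 * (k : ℤ) + i) / 3).toNat = k := by omega
  rw [this, List.getElem?_eq_getElem hk]
  rfl

theorem io_L (n k : ℕ) (hk : k < (wd n).length) (i : ℤ) (hi : i = 1 ∨ i = 2) :
    io M n (fun _ => -(3 * (k : ℤ) + i)) = sL (wd n)[k] := by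
  rw [io_apply, neg_neg, lay_neg n (x := -(3 * (k : ℤ) + i)) (by omega),
    lay_pos n (x := 3 * (k : ℤ) + i) (by omega) (by omega)]
  have : ((3 * (k : ℤ) + i) / 3).toNat = k := by omega
  rw [this, List.getElem?_eq_getElem hk]
  rfl

theorem io_cases (n : ℕ) (y : ℤ) : io M n (fun _ => y) = (aut M).ν ∨
    (∃ k : ℕ, ∃ _ : k < (wd n).length, ∃ i : ℤ, (i = 1 ∨ i = 2) ∧ y = 3 * (k : ℤ) + i) ∨
    (∃ k : ℕ, ∃ _ : k < (wd n).length, ∃ i : ℤ, (i = 1 ∨ i = 2) ∧ y = -(3 * (k : ℤ) + i)) := by
  by_cases h3 : y % 3 = 0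
  · left
    rw [io_apply, lay_zero n h3, lay_zero n (by omega)]
    rfl
  rcases lt_or_gt_of_ne (show y ≠ 0 by intro h; subst h; simp at h3) with h | h
  · by_cases hk : (-y / 3).toNat < (wd n).length
    · right; right
      exact ⟨(-y / 3).toNat, hk, -y - 3 * (-y / 3), by omega, by omega⟩
    · left
      rw [io_apply, lay_neg n h, lay_pos n (by omega) (by omega),
        List.getElem?_eq_none (not_lt.1 hk), upO_none]
      rfl
  · by_cases hk : (y / 3).toNat < (wd n).length
    · right; left
      exact ⟨(y / 3).toNat, hk, y - 3 * (y / 3), by omega, by omega⟩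
    · left
      rw [io_apply, lay_pos n h3 h, lay_neg n (by omega), List.getElem?_eq_none (not_lt.1 hk),
        upO_none]
      rfl

theorem mem_posR {l : List ℕ} {x : Fin 1 → ℤ} {v : ℕ} : (x, v) ∈ posR l ↔
    ∃ k, k < l.length ∧ ∃ i : ℤ, (i = 1 ∨ i = 2) ∧ x = (fun _ => 3 * (k : ℤ) + i) ∧
      v = l.getI k := by
  unfold posR
  simp only [List.mem_flatMap, List.mem_range, List.mem_cons, Prod.mk.injEq, List.not_mem_nil,
    or_false]
  constructor
  · rintro ⟨k, hk, ⟨h1, h2⟩ | ⟨h1, h2⟩⟩
    · exact ⟨k, hk, 1, Or.inl rfl, by rw [h1]; funext _; push_cast; ring, h2⟩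
    · exact ⟨k, hk, 2, Or.inr rfl, by rw [h1]; funext _; push_cast; ring, h2⟩
  · rintro ⟨k, hk, i, rfl | rfl, h1, h2⟩
    · exact ⟨k, hk, Or.inl ⟨by rw [h1]; funext _; push_cast; ring, h2⟩⟩
    · exact ⟨k, hk, Or.inr ⟨by rw [h1]; funext _; push_cast; ring, h2⟩⟩

theorem mem_posL {l : List ℕ} {x : Fin 1 → ℤ} {v : ℕ} : (x, v) ∈ posL l ↔
    ∃ k, k < l.length ∧ ∃ i : ℤ, (i = 1 ∨ i = 2) ∧ x = (fun _ => -(3 * (k : ℤ) + i)) ∧
      v = l.getI k := by
  unfold posL
  simp only [List.mem_flatMap, List.mem_range, List.mem_cons, Prod.mk.injEq, List.not_mem_nil,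
    or_false]
  constructor
  · rintro ⟨k, hk, ⟨h1, h2⟩ | ⟨h1, h2⟩⟩
    · exact ⟨k, hk, 1, Or.inl rfl, by rw [h1]; funext _; rw [Int.negSucc_eq]; push_cast; ring, h2⟩
    · exact ⟨k, hk, 2, Or.inr rfl, by rw [h1]; funext _; rw [Int.negSucc_eq]; push_cast; ring, h2⟩
  · rintro ⟨k, hk, i, rfl | rfl, h1, h2⟩
    · exact ⟨k, hk, Or.inl ⟨by rw [h1]; funext _; rw [Int.negSucc_eq]; push_cast; ring, h2⟩⟩
    · exact ⟨k, hk, Or.inr ⟨by rw [h1]; funext _; rw [Int.negSucc_eq]; push_cast; ring, h2⟩⟩

theorem getI_map (l : List Γ') (κ : Γ' → ℕ) {k : ℕ} (hk : k < l.length) :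
    (l.map κ).getI k = κ l[k] := by
  rw [List.getI_eq_getElem _ (by simpa using hk)]
  simp

theorem sR_inj {a b : Γ'} (h : (sR a : Ly Q × Ly Q) = sR b) : a = b := by
  have h1 : upO (some a) = upO (some b) := congrArg (fun s : Ly Q × Ly Q => s.1.1) h
  exact Option.some.inj (upO_inj h1)

theorem sL_inj {a b : Γ'} (h : (sL a : Ly Q × Ly Q) = sL b) : a = b := by
  have h1 : upO (some a) = upO (some b) := congrArg (fun s : Ly Q × Ly Q => s.2.1) h
  exact Option.some.inj (upO_inj h1)

theorem io_recursive : IsRecursive (io M) := by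
  classical
  let e : (aut M).S ≃ Fin (Fintype.card (aut M).S) := Fintype.equivFin _
  let κR : Γ' → ℕ := fun a => (e (sR a) : ℕ)
  let κL : Γ' → ℕ := fun a => (e (sL a) : ℕ)
  refine ⟨e, fun n => posR ((wd n).map κR) ++ posL ((wd n).map κL), ?_, ?_⟩
  · exact Computable.list_append.comp (primrec_posR.to_comp.comp (word_computable κR))
      (primrec_posL.to_comp.comp (word_computable κL))
  · intro n x s hs
    have hx : (fun _ => x 0) = x := by
      funext i; rw [Subsingleton.elim i 0]
    rw [List.mem_append, mem_posR, mem_posL]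
    simp only [List.length_map]
    constructor
    · intro h
      have h' : io M n (fun _ => x 0) = s := by rw [hx]; exact h
      rcases io_cases M n (x 0) with h0 | ⟨k, hk, i, hi, hy⟩ | ⟨k, hk, i, hi, hy⟩
      · exact absurd (h'.symm.trans h0) hs
      · left
        refine ⟨k, hk, i, hi, by rw [← hx]; funext _; exact hy, ?_⟩
        rw [getI_map _ _ hk]
        rw [hy, io_R M n k hk i hi] at h'
        rw [← h']
      · right
        refine ⟨k, hk, i, hi, by rw [← hx]; funext _; exact hy, ?_⟩
        rw [getI_map _ _ hk]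
        rw [hy, io_L M n k hk i hi] at h'
        rw [← h']
    · rintro (⟨k, hk, i, hi, hx', hv⟩ | ⟨k, hk, i, hi, hx', hv⟩)
      · rw [getI_map _ _ hk] at hv
        have : s = sR (wd n)[k] := e.injective (Fin.ext hv)
        rw [hx', this]
        exact io_R M n k hk i hi
      · rw [getI_map _ _ hk] at hv
        have : s = sL (wd n)[k] := e.injective (Fin.ext hv)
        rw [hx', this]
        exact io_L M n k hk i hi

/-- the Turing domain -/
noncomputable def dom : TuringDomain (aut M) where
  T := Set.range (io M)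
  ι := io M
  finite := by rintro _ ⟨n, rfl⟩; exact io_finite M n
  mem := fun n => ⟨n, rfl⟩
  injective := io_inj M
  recursive := io_recursive M
  passive := by rintro _ ⟨n, rfl⟩; exact quiet_compPassive M (io_quiet M n)
  union := by
    intro F τ hF _ u hu
    refine quiet_compPassive M ?_
    intro x q
    by_cases hx : u x = (aut M).ν
    · rw [hx]
      exact ⟨by simp [aut, ν0], by simp [aut, ν0]⟩
    · obtain ⟨c, hc, hcx⟩ := (hu x _ hx).1 rfl
      obtain ⟨n, rfl⟩ := hF c hc
      rw [← hcx]
      exact io_quiet M n _ q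

theorem dom_U : (dom M).U = {x | x 0 % 3 ≠ 0} := by
  ext x
  have hx : (fun _ => x 0) = x := by
    funext i; rw [Subsingleton.elim i 0]
  unfold TuringDomain.U
  simp only [Set.mem_iUnion, exists_prop]
  constructor
  · rintro ⟨_, ⟨n, rfl⟩, h⟩
    exact io_supp M h
  · intro h
    obtain ⟨n, hn⟩ := cover M (y := x 0) h
    rw [hx] at hn
    exact ⟨_, ⟨n, rfl⟩, hn⟩

end construction

end Pool.Agent.R497.CA
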