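import Mathlib

set_option autoImplicit false

namespace Pool.Agent.R497.CA

open Turing Relation StateTransition
open Turing.PartrecToTM2 (trNat trList trNum trPosNum K' Γ')

/-- tape symbols of the one-tape machine -/
abbrev Sy : Type := TM2to1.Γ' K' (fun _ => Γ')

/-- absolute configurations: state, head position, tape -/
abbrev ACfg (Q Γ : Type) : Type := Q × ℤ × (ℤ → Γ)

/-- a step of a machine on the tape `ℤ` -/
def astep {Q Γ : Type} (M : Q → Γ → Option (Q × TM0.Stmt Γ)) : ACfg Q Γ → Option (ACfg Q Γ)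
  | (q, p, F) => match M q (F p) with
    | none => none
    | some (q', TM0.Stmt.move Dir.left) => some (q', p - 1, F)
    | some (q', TM0.Stmt.move Dir.right) => some (q', p + 1, F)
    | some (q', TM0.Stmt.write b) => some (q', p, Function.update F p b)

/-- the symbol with bottom flag `b` and stack entries `f` -/
def pr (b : Bool) (f : K' → Option Γ') : Sy := (b, f)

/-- the tape which contains the four stacks, with bottom at `0` -/
def tapeOf (S : K' → List Γ') : ℤ → Sy := fun k =>
  if k < 0 then default else pr (decide (k = 0)) (fun j => (S j).reverse[k.toNat]?)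

theorem tapeOf_neg (S : K' → List Γ') {k : ℤ} (hk : k < 0) : tapeOf S k = default :=
  if_pos hk

theorem tapeOf_fst (S : K' → List Γ') (k : ℤ) : (tapeOf S k).1 = decide (k = 0) := by
  by_cases hk : k < 0
  · rw [tapeOf_neg S hk]
    have : k ≠ 0 := by omega
    simp only [this, decide_false]
    rfl
  · have : tapeOf S k = pr (decide (k = 0)) (fun j => (S j).reverse[k.toNat]?) := if_neg hk
    rw [this]
    rfl

theorem tapeOf_snd (S : K' → List Γ') {k : ℤ} (hk : 0 ≤ k) (j : K') :
    (tapeOf S k).2 j = (S j).reverse[k.toNat]? := by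
  have : tapeOf S k = pr (decide (k = 0)) (fun j => (S j).reverse[k.toNat]?) :=
    if_neg (not_lt.2 hk)
  rw [this]
  rfl

/-- absolute tape -/
def ab {Γ : Type} [Inhabited Γ] (p : ℤ) (T : Tape Γ) : ℤ → Γ := fun k => T.nth (k - p)

section abs

variable {Q Γ : Type} [Inhabited Q] [Inhabited Γ]

theorem abs_step (M : TM0.Machine Γ Q) {q q' : Q} {T T' : Tape Γ}
    (h : TM0.step M ⟨q, T⟩ = some ⟨q', T'⟩) (p : ℤ) :
    ∃ p', astep M (q, p, ab p T) = some (q', p', ab p' T') := by
  have h0 : ab p T p = T.head := by simp [ab]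
  simp only [TM0.step] at h
  simp only [astep, h0]
  rcases hM : M q T.head with _ | ⟨q1, a⟩
  · rw [hM] at h; simp at h
  · rw [hM] at h
    simp only [Option.map_some, Option.some.injEq, TM0.Cfg.mk.injEq] at h
    obtain ⟨rfl, h⟩ := h
    rcases a with d | b
    · rcases d with _ | _
      · refine ⟨p - 1, ?_⟩
        simp only at h ⊢
        congr 3
        funext k
        simp only [ab, ← h, Tape.move_left_nth]
        congr 1
        ring
      · refine ⟨p + 1, ?_⟩
        simp only at h ⊢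
        congr 3
        funext k
        simp only [ab, ← h, Tape.move_right_nth]
        congr 1
        ring
    · refine ⟨p, ?_⟩
      simp only at h ⊢
      congr 3
      funext k
      simp only [ab, ← h, Tape.write_nth, Function.update_apply]
      by_cases hk : k = p
      · simp [hk]
      · have : k - p ≠ 0 := fun h => hk (by omega)
        simp [hk, this]

theorem abs_reaches (M : TM0.Machine Γ Q) {c c' : TM0.Cfg Γ Q}
    (h : Reaches (TM0.step M) c c') (p : ℤ) :
    ∃ p', Reaches (astep M) (c.q, p, ab p c.Tape) (c'.q, p', ab p' c'.Tape) := by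
  induction h with
  | refl => exact ⟨p, ReflTransGen.refl⟩
  | tail _ h ih =>
    obtain ⟨p', ih⟩ := ih
    obtain ⟨p'', h''⟩ := abs_step M h p'
    exact ⟨p'', ih.tail h''⟩

theorem astep_none (M : TM0.Machine Γ Q) {q : Q} {T : Tape Γ} {p : ℤ}
    (h : TM0.step M ⟨q, T⟩ = none) : M q (ab p T p) = none := by
  have h0 : ab p T p = T.head := by simp [ab]
  rw [h0]
  simpa [TM0.step] using h

end abs

section restrict

variable {Q Γ : Type}

/-- restriction of a machine to a set of states -/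
noncomputable def restr (M : Q → Γ → Option (Q × TM0.Stmt Γ)) (S : Set Q) :
    S → Γ → Option (S × TM0.Stmt Γ) := fun q a =>
  open Classical in (M q a).bind fun r => if h : r.1 ∈ S then some (⟨r.1, h⟩, r.2) else none

theorem restr_step (M : Q → Γ → Option (Q × TM0.Stmt Γ)) (S : Set Q)
    (hS : ∀ q ∈ S, ∀ a, ∀ r ∈ M q a, r.1 ∈ S) {c c' : ACfg Q Γ} (hc : c.1 ∈ S)
    (h : astep M c = some c') : ∃ hc' : c'.1 ∈ S,
      astep (restr M S) (⟨c.1, hc⟩, c.2) = some (⟨c'.1, hc'⟩, c'.2) := by
  obtain ⟨q, p, F⟩ := c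
  simp only [astep] at h ⊢
  rcases hM : M q (F p) with _ | ⟨q1, a⟩
  · rw [hM] at h; simp at h
  · rw [hM] at h
    have hq1 : q1 ∈ S := hS q hc (F p) _ hM
    have hr : restr M S ⟨q, hc⟩ (F p) = some (⟨q1, hq1⟩, a) := by
      simp [restr, hM, hq1]
    simp only [hr]
    rcases a with (_ | _) | b <;> simp only [Option.some.injEq] at h <;> subst h <;>
      exact ⟨hq1, rfl⟩

theorem restr_reaches (M : Q → Γ → Option (Q × TM0.Stmt Γ)) (S : Set Q)
    (hS : ∀ q ∈ S, ∀ a, ∀ r ∈ M q a, r.1 ∈ S) {c c' : ACfg Q Γ} (hc : c.1 ∈ S)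
    (h : Reaches (astep M) c c') : ∃ hc' : c'.1 ∈ S,
      Reaches (astep (restr M S)) (⟨c.1, hc⟩, c.2) (⟨c'.1, hc'⟩, c'.2) := by
  induction h with
  | refl => exact ⟨hc, ReflTransGen.refl⟩
  | tail _ h ih =>
    obtain ⟨hc1, ih⟩ := ih
    obtain ⟨hc2, h2⟩ := restr_step M S hS hc1 h
    exact ⟨hc2, ih.tail h2⟩

end restrict

section flags

variable {Λ σ : Type} [Inhabited Λ] [Inhabited σ]

/-- statements which never change the bottom flag -/
def Good : TM1.Stmt Sy Λ σ → Prop
  | TM1.Stmt.move _ q => Good q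
  | TM1.Stmt.write a q => (∀ x s, (a x s).1 = x.1) ∧ Good q
  | TM1.Stmt.load _ q => Good q
  | TM1.Stmt.branch _ q₁ q₂ => Good q₁ ∧ Good q₂
  | TM1.Stmt.goto _ => True
  | TM1.Stmt.halt => True

/-- labels with good statements -/
def GoodL (M : Λ → TM1.Stmt Sy Λ σ) : TM1to0.Λ' M → Prop
  | (none, _) => True
  | (some q, _) => Good q

theorem trAux_good (M : Λ → TM1.Stmt Sy Λ σ) (hM : ∀ l, Good (M l)) (a : Sy) :
    ∀ (q : TM1.Stmt Sy Λ σ) (v : σ), Good q →
      GoodL M (TM1to0.trAux M a q v).1 ∧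
        ∀ b, (TM1to0.trAux M a q v).2 = TM0.Stmt.write b → b.1 = a.1 := by
  intro q
  induction q with
  | move d q _ => intro v h; exact ⟨h, fun b hb => by simp [TM1to0.trAux] at hb⟩
  | write f q _ =>
    intro v h
    refine ⟨h.2, fun b hb => ?_⟩
    simp only [TM1to0.trAux, TM0.Stmt.write.injEq] at hb
    rw [← hb]; exact h.1 _ _
  | load f q ih => intro v h; exact ih _ h
  | branch f q₁ q₂ ih₁ ih₂ =>
    intro v h
    unfold TM1to0.trAux
    cases f a v
    · exact ih₂ _ h.2
    · exact ih₁ _ h.1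
  | goto l =>
    intro v _
    refine ⟨hM _, fun b hb => ?_⟩
    simp only [TM1to0.trAux, TM0.Stmt.write.injEq] at hb
    rw [← hb]
  | halt =>
    intro v _
    refine ⟨trivial, fun b hb => ?_⟩
    simp only [TM1to0.trAux, TM0.Stmt.write.injEq] at hb
    rw [← hb]

theorem flag_step (M : Λ → TM1.Stmt Sy Λ σ) (hM : ∀ l, Good (M l))
    {c c' : ACfg (TM1to0.Λ' M) Sy} (hc : GoodL M c.1)
    (h : astep (TM1to0.tr M) c = some c') : GoodL M c'.1 ∧ ∀ k, (c'.2.2 k).1 = (c.2.2 k).1 := by
  obtain ⟨⟨q, v⟩, p, F⟩ := c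
  rcases q with _ | q
  · simp [astep, TM1to0.tr] at h
  · obtain ⟨h1, h2⟩ := trAux_good M hM (F p) q v hc
    simp only [astep, TM1to0.tr] at h
    rcases hr : TM1to0.trAux M (F p) q v with ⟨l, a⟩
    rw [hr] at h h1 h2
    rcases a with (_ | _) | b
    · simp only [Option.some.injEq] at h; subst h; exact ⟨h1, fun k => rfl⟩
    · simp only [Option.some.injEq] at h; subst h; exact ⟨h1, fun k => rfl⟩
    · simp only [Option.some.injEq] at h; subst h
      refine ⟨h1, fun k => ?_⟩
      simp only [Function.update_apply]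
      split_ifs with hk
      · rw [h2 b rfl, hk]
      · rfl

theorem flag_reaches (M : Λ → TM1.Stmt Sy Λ σ) (hM : ∀ l, Good (M l))
    {c c' : ACfg (TM1to0.Λ' M) Sy} (hc : GoodL M c.1)
    (h : Reaches (astep (TM1to0.tr M)) c c') :
    GoodL M c'.1 ∧ ∀ k, (c'.2.2 k).1 = (c.2.2 k).1 := by
  induction h with
  | refl => exact ⟨hc, fun _ => rfl⟩
  | tail _ h ih =>
    obtain ⟨h1, h2⟩ := ih
    obtain ⟨h3, h4⟩ := flag_step M hM h1 h
    exact ⟨h3, fun k => (h4 k).trans (h2 k)⟩

theorem trNormal_good {Λ₂ : Type} (q : TM2.Stmt (fun _ : K' => Γ') Λ₂ σ) :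
    Good (TM2to1.trNormal q) := by
  induction q with
  | push => trivial
  | peek => trivial
  | pop => trivial
  | load _ _ ih => exact ih
  | branch _ _ _ ih₁ ih₂ => exact ⟨ih₁, ih₂⟩
  | goto => trivial
  | halt => trivial

theorem tr_good {Λ₂ : Type} (M : Λ₂ → TM2.Stmt (fun _ : K' => Γ') Λ₂ σ) (l) :
    Good (TM2to1.tr M l) := by
  rcases l with q | ⟨k, s, q⟩ | q
  · exact trNormal_good _
  · refine ⟨?_, trivial⟩
    rcases s with f | f | f
    · exact ⟨fun _ _ => rfl, trivial⟩
    · trivial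
    · exact ⟨trivial, fun _ _ => rfl, trivial⟩
  · exact ⟨trNormal_good _, trivial⟩

end flags

end Pool.Agent.R497.CA
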