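import Pool.Agent.R497.CA.TM

set_option autoImplicit false

namespace Pool.Agent.R497.CA

open Turing Relation StateTransition
open Turing.PartrecToTM2 (trNat trList trNum trPosNum K' Γ')

/-- a universal code -/
theorem exists_univ : ∃ c : ToPartrec.Code, ∀ e n : ℕ,
    c.eval [e, n] = pure <$> (Denumerable.ofNat Nat.Partrec.Code e).eval n := by
  have hf : Partrec₂ (fun e n : ℕ => (Denumerable.ofNat Nat.Partrec.Code e).eval n) :=
    Nat.Partrec.Code.eval_part.comp ((Computable.ofNat Nat.Partrec.Code).comp Computable.fst)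
      Computable.snd
  obtain ⟨c, hc⟩ := ToPartrec.Code.exists_code (Nat.Partrec'.part_iff₂.2 hf)
  exact ⟨c, fun e n => hc ⟨[e, n], rfl⟩⟩

theorem exists_L (S : K' → List Γ') : ∃ L : ListBlank (∀ _ : K', Option Γ'),
    ∀ k, L.map (proj k) = ListBlank.mk ((S k).map some).reverse := by
  let N := (S .main).length + (S .rev).length + (S .aux).length + (S .stack).length
  refine ⟨ListBlank.mk ((List.range N).map fun i => fun j => (S j).reverse[i]?), fun k => ?_⟩
  have hN : (S k).length ≤ N := by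
    cases k <;> simp only [N] <;> omega
  refine ListBlank.ext fun i => ?_
  rw [ListBlank.nth_map, ListBlank.nth_mk, ListBlank.nth_mk, List.getI_eq_getElem?_getD,
    List.getI_eq_getElem?_getD, List.getElem?_map, ← List.map_reverse, List.getElem?_map]
  by_cases hi : i < N
  · rw [List.getElem?_range hi]
    simp only [Option.map_some, Option.getD_some]
    show (S k).reverse[i]? = _
    rcases (S k).reverse[i]? with _ | a <;> rfl
  · have h1 : (List.range N)[i]? = none := by
      rw [List.getElem?_eq_none]; simpa using hi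
    have h2 : (S k).reverse[i]? = none := by
      rw [List.getElem?_eq_none]; simp; omega
    rw [h1, h2]
    rfl

theorem ab_bottom {S : K' → List Γ'} {L : ListBlank (∀ _ : K', Option Γ')}
    (hL : ∀ k, L.map (proj k) = ListBlank.mk ((S k).map some).reverse) :
    ab 0 (Tape.mk' ∅ (TM2to1.addBottom L)) = tapeOf S := by
  funext k
  unfold ab
  rw [sub_zero]
  by_cases hk : k < 0
  · rw [tapeOf_neg S hk]
    obtain ⟨n, rfl⟩ := Int.eq_negSucc_of_lt_zero hk
    rfl
  · obtain ⟨n, rfl⟩ := Int.eq_ofNat_of_zero_le (not_lt.1 hk)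
    rw [Tape.mk'_nth_nat]
    refine Prod.ext ?_ ?_
    · rw [tapeOf_fst]
      rcases n with _ | n
      · rw [ListBlank.nth_zero, TM2to1.addBottom_head_fst]; simp
      · rw [TM2to1.addBottom_nth_succ_fst]
        have : ((n + 1 : ℕ) : ℤ) ≠ 0 := by omega
        simp only [this, decide_false]
    · rw [TM2to1.addBottom_nth_snd]
      funext j
      rw [TM2to1.stk_nth_val _ (hL j), tapeOf_snd S (by omega)]
      simp

/-- The initial stacks: the input `n` on the main stack, the program `e` on the second stack. -/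
def initS (e n : ℕ) : K' → List Γ' :=
  K'.elim (trList [n]) (Γ'.cons :: (trNat e).reverse) [] []

/-- The final stacks. -/
def finS (m : ℕ) : K' → List Γ' := K'.elim (trList [m]) [] [] []

/-- the starting label -/
def startL (c : ToPartrec.Code) : PartrecToTM2.Λ' :=
  PartrecToTM2.Λ'.move (fun _ => false) K'.rev K'.main
    (PartrecToTM2.trNormal c PartrecToTM2.Cont'.halt)

theorem tm2_reaches {c : ToPartrec.Code} (hc : ∀ e n : ℕ,
    c.eval [e, n] = pure <$> (Denumerable.ofNat Nat.Partrec.Code e).eval n) {e n m : ℕ}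
    (h : m ∈ (Denumerable.ofNat Nat.Partrec.Code e).eval n) :
    Reaches (TM2.step PartrecToTM2.tr)
      (⟨some (startL c), none, initS e n⟩ : PartrecToTM2.Cfg') ⟨none, none, finS m⟩ := by
  have h1 := PartrecToTM2.move_ok (q := PartrecToTM2.trNormal c PartrecToTM2.Cont'.halt)
    (s := none) (S := initS e n) (k₁ := K'.rev) (k₂ := K'.main) (by decide)
    (PartrecToTM2.splitAtPred_false (initS e n K'.rev))
  have h2 : (Function.update (Function.update (initS e n) K'.rev []) K'.main
      ((initS e n K'.rev).reverseAux (initS e n K'.main))) = K'.elim (trList [e, n]) [] [] [] := by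
    funext k
    cases k
    · simp [initS, List.reverseAux_eq, PartrecToTM2.trList]
    · simp [initS]
    · simp [initS]
    · simp [initS]
  rw [h2] at h1
  refine h1.to_reflTransGen.trans ?_
  have h3 : PartrecToTM2.halt [m] ∈ eval (TM2.step PartrecToTM2.tr) (PartrecToTM2.init c [e, n]) := by
    rw [PartrecToTM2.tr_eval, hc]
    exact (Part.mem_map_iff _).2 ⟨[m], (Part.mem_map_iff _).2 ⟨m, h, rfl⟩, rfl⟩
  exact (mem_eval.1 h3).1

theorem exists_machine : ∃ (Q : Type) (_ : Fintype Q) (q0 : Q)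
    (M : Q → Sy → Option (Q × TM0.Stmt Sy)), ∀ e n m : ℕ,
      m ∈ (Denumerable.ofNat Nat.Partrec.Code e).eval n →
      ∃ q1 : Q, Reaches (astep M) (q0, 0, tapeOf (initS e n)) (q1, 0, tapeOf (finS m)) ∧
        M q1 (tapeOf (finS m) 0) = none := by
  classical
  obtain ⟨c, hc⟩ := exists_univ
  let inst : Inhabited PartrecToTM2.Λ' := ⟨startL c⟩
  let M2 := PartrecToTM2.tr
  let M1 := TM2to1.tr M2
  let M0 := TM1to0.tr M1
  let S2 : Finset PartrecToTM2.Λ' :=
    insert (startL c) (PartrecToTM2.codeSupp c PartrecToTM2.Cont'.halt)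
  have hsub : PartrecToTM2.codeSupp c PartrecToTM2.Cont'.halt ⊆ S2 := Finset.subset_insert _ _
  have hmem : PartrecToTM2.trNormal c PartrecToTM2.Cont'.halt ∈ S2 := by
    refine hsub ?_
    exact (PartrecToTM2.tr_supports c PartrecToTM2.Cont'.halt).1
  have s2 : TM2.Supports M2 S2 := by
    refine ⟨Finset.mem_insert_self _ _, fun q hq => ?_⟩
    rcases Finset.mem_insert.1 hq with rfl | hq
    · refine ⟨fun _ => hmem, fun _ => Finset.mem_insert_self _ _⟩
    · exact PartrecToTM2.codeSupp_supports hsub q hq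
  have s1 := TM2to1.tr_supports M2 s2
  have s0 := TM1to0.tr_supports M1 s1
  let S0 : Set (TM1to0.Λ' M1) := ↑(TM1to0.trStmts M1 (TM2to1.trSupp M2 S2))
  have hS0 : ∀ q ∈ S0, ∀ a, ∀ r ∈ M0 q a, r.1 ∈ S0 := by
    intro q hq a r hr
    exact s0.2 hr hq
  have hq0 : ((some (M1 (TM2to1.Λ'.normal (startL c))), none) : TM1to0.Λ' M1) ∈ S0 := s0.1
  refine ⟨S0, Fintype.ofFinite _, ⟨_, hq0⟩, restr M0 S0, fun e n m h => ?_⟩
  obtain ⟨L, hL⟩ := exists_L (initS e n)
  have t2 := tm2_reaches hc h
  obtain ⟨b1, hb1, t1⟩ := tr_reaches (TM2to1.tr_respects M2) (TM2to1.TrCfg.mk L hL) t2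
  rcases hb1 with ⟨L', hL'⟩
  obtain ⟨b0, hb0, t0⟩ := tr_reaches (TM1to0.tr_respects M1) rfl t1
  subst hb0
  obtain ⟨p', ta⟩ := abs_reaches M0 t0 0
  have e1 : ab 0 (TM1to0.trCfg M1 ⟨Option.map TM2to1.Λ'.normal (some (startL c)), none,
      Tape.mk' ∅ (TM2to1.addBottom L)⟩).Tape = tapeOf (initS e n) := ab_bottom hL
  rw [e1] at ta
  have hfl := flag_reaches M1 (fun l => tr_good M2 l) (c := (_, 0, tapeOf (initS e n)))
    (show GoodL M1 (some (M1 (TM2to1.Λ'.normal (startL c))), none) from tr_good M2 _) ta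
  have hp : p' = 0 := by
    have h1 := hfl.2 p'
    simp only [ab, sub_self] at h1
    have h2 : ((TM1to0.trCfg M1 ⟨Option.map TM2to1.Λ'.normal none, none,
      Tape.mk' ∅ (TM2to1.addBottom L')⟩).Tape.nth 0).1 = true := by
      show ((Tape.mk' ∅ (TM2to1.addBottom L')).nth ((0 : ℕ) : ℤ)).1 = true
      rw [Tape.mk'_nth_nat, ListBlank.nth_zero, TM2to1.addBottom_head_fst]
    rw [h2] at h1
    rw [tapeOf_fst] at h1
    exact of_decide_eq_true h1.symm
  subst hp
  have e2 : ab 0 (TM1to0.trCfg M1 ⟨Option.map TM2to1.Λ'.normal none, none,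
      Tape.mk' ∅ (TM2to1.addBottom L')⟩).Tape = tapeOf (finS m) := ab_bottom hL'
  rw [e2] at ta
  obtain ⟨hq1, tr⟩ := restr_reaches M0 S0 hS0 hq0 ta
  refine ⟨⟨_, hq1⟩, tr, ?_⟩
  rfl

end Pool.Agent.R497.CA
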